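import Mathlib

set_option autoImplicit false

namespace Pool.Agent.Results.MP_eb99da_pr.NotAR

open MeasureTheory Filter Topology Finset ENNReal

abbrev G := ℤ →₀ ℤ

instance : MeasurableSpace G := ⊤

def AR (μ : PMF G) : Prop :=
  ∀ n, 1 ≤ n → ∀ᵐ ζ ∂(Measure.infinitePi fun _ : ℕ => μ.toMeasure),
    AddSubsemigroup.closure {x | ∃ m, n ≤ m ∧ x = ∑ i ∈ range m, ζ i} = ⊤

noncomputable def p (k : ℕ) : ℝ := 1 / (((k : ℝ) + 1) * (k + 2))

lemma p_pos (k : ℕ) : 0 < p k := by unfold p; positivity

lemma p_sum (n : ℕ) : ∑ k ∈ range n, p k = 1 - 1 / ((n : ℝ) + 1) := by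
  induction n with
  | zero => simp
  | succ n ih => rw [sum_range_succ, ih, p]; push_cast; field_simp; ring

lemma p_hasSum : HasSum p 1 := by
  rw [hasSum_iff_tendsto_nat_of_nonneg fun k => (p_pos k).le]
  simp only [p_sum]
  simpa using tendsto_const_nhds.sub (tendsto_one_div_add_atTop_nhds_zero_nat (𝕜 := ℝ))

lemma p_tsum : ∑' k, ENNReal.ofReal (p k) = 1 := by
  rw [← ENNReal.ofReal_tsum_of_nonneg (fun k => (p_pos k).le) p_hasSum.summable, p_hasSum.tsum_eq,
    ofReal_one]

noncomputable def idx : PMF ℕ := ⟨fun k => ENNReal.ofReal (p k), p_tsum ▸ ENNReal.summable.hasSum⟩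

noncomputable def nu : PMF (ℕ × Bool) :=
  idx.bind fun k => (PMF.uniformOfFintype Bool).map fun b => (k, b)

def sg (b : Bool) : ℤ := if b then 1 else -1

noncomputable def phi (x : ℕ × Bool) : G := Finsupp.single (Equiv.intEquivNat.symm x.1) (sg x.2)

noncomputable def mu : PMF G := nu.map phi

lemma nu_fst (s : Set ℕ) : nu.toMeasure (Prod.fst ⁻¹' s) = idx.toMeasure s := by
  have : nu.map Prod.fst = idx := by
    simp only [nu, PMF.map_bind, PMF.map_comp]
    conv_rhs => rw [← PMF.bind_pure idx]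
    congr 1
    funext k
    exact PMF.map_const _ _
  rw [← this, PMF.toMeasure_map_apply _ _ _ measurable_fst (MeasurableSet.of_discrete)]

lemma mu_symm (g : G) : mu (-g) = mu g := by
  have h1 : (PMF.uniformOfFintype Bool).map (fun b => !b) = PMF.uniformOfFintype Bool := by
    ext b
    rw [PMF.map_apply, tsum_eq_single (!b)]
    · simp
    · intro c hc
      rw [if_neg]
      rintro rfl
      simp at hc
  have h2 : mu.map (fun g => -g) = mu := by
    simp only [mu, nu, PMF.map_bind, PMF.map_comp]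
    congr 1
    funext k
    conv_rhs => rw [← h1, PMF.map_comp]
    congr 1
    funext b
    cases b <;> simp [phi, sg]
  conv_rhs => rw [← h2, PMF.map_apply, tsum_eq_single (-g) (fun c hc => by
    rw [if_neg]; rintro rfl; simp at hc)]
  simp

lemma mu_gen : AddSubgroup.closure mu.support = ⊤ := by
  rw [eq_top_iff]
  intro g _
  induction g using Finsupp.induction_linear with
  | zero => exact zero_mem _
  | add f g hf hg => exact add_mem (hf trivial) (hg trivial)
  | single a b =>
    have : Finsupp.single a (1 : ℤ) ∈ mu.support := by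
      simp only [mu, nu, PMF.support_map, PMF.support_bind, Set.mem_image, Set.mem_iUnion]
      refine ⟨(Equiv.intEquivNat a, true), ⟨Equiv.intEquivNat a, ?_, true, by simp, rfl⟩,
        by simp [phi, sg]⟩
      exact (ofReal_pos.mpr (p_pos _)).ne'
    simpa using zsmul_mem (AddSubgroup.subset_closure this) b

def B (K a b : ℕ) : Set (ℕ → ℕ × Bool) :=
  Set.pi (range (a + b + 2)) fun i => Prod.fst ⁻¹'
    (if i = a ∨ i = a + b + 1 then {K} else (range K : Set ℕ))

noncomputable abbrev P : Measure (ℕ → ℕ × Bool) := Measure.infinitePi fun _ : ℕ => nu.toMeasure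

lemma PB (K a b : ℕ) : P (B K a b) = ENNReal.ofReal (p K) ^ 2 *
    (ENNReal.ofReal (1 - 1 / ((K : ℝ) + 1)) ^ a * ENNReal.ofReal (1 - 1 / ((K : ℝ) + 1)) ^ b) := by
  have h1 : idx.toMeasure {K} = ENNReal.ofReal (p K) :=
    PMF.toMeasure_apply_singleton _ _ (measurableSet_singleton _)
  have h2 : idx.toMeasure (range K : Set ℕ) = ENNReal.ofReal (1 - 1 / ((K : ℝ) + 1)) := by
    rw [PMF.toMeasure_apply_finset, ← p_sum, ofReal_sum_of_nonneg fun k _ => (p_pos k).le]
    rfl
  have h3 : (range (a + b + 2)).filter (fun i => i = a ∨ i = a + b + 1) = {a, a + b + 1} := by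
    ext i; simp; omega
  have h4 := card_filter_add_card_filter_not (s := range (a + b + 2))
    (fun i => i = a ∨ i = a + b + 1)
  rw [h3, card_pair (by omega), card_range] at h4
  rw [B, Measure.infinitePi_pi _ fun i _ => MeasurableSet.of_discrete]
  simp only [nu_fst, apply_ite idx.toMeasure, h1, h2]
  rw [prod_ite, prod_const, prod_const, h3, card_pair (by omega), ← pow_add]
  congr 2
  omega

lemma bad_lt : P (⋃ K, ⋃ a, ⋃ b, B K a b) < 1 := by
  have h1 : ∀ K, P (⋃ a, ⋃ b, B K a b) < ENNReal.ofReal (p K) := by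
    intro K
    have hK : (0 : ℝ) < K + 1 := by positivity
    have e : (1 - ENNReal.ofReal (1 - 1 / ((K : ℝ) + 1)))⁻¹ = ENNReal.ofReal (K + 1) := by
      rw [← ofReal_one, ← ofReal_sub _ (by
        rw [sub_nonneg, div_le_one hK]; linarith [(Nat.cast_nonneg K : (0 : ℝ) ≤ K)]),
        _root_.sub_sub_cancel, ← ofReal_inv_of_pos (by positivity), one_div, inv_inv]
    calc _ ≤ ∑' a, ∑' b, P (B K a b) :=
          (measure_iUnion_le _).trans (ENNReal.tsum_le_tsum fun a => measure_iUnion_le _)
      _ = ENNReal.ofReal (p K ^ 2 * ((K + 1) * (K + 1))) := by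
          simp only [PB, ENNReal.tsum_mul_left, ENNReal.tsum_mul_right, ENNReal.tsum_geometric, e]
          rw [ofReal_mul (sq_nonneg _), ofReal_mul hK.le, ofReal_pow (p_pos K).le]
      _ < _ := by
          rw [ofReal_lt_ofReal_iff (p_pos K), p]
          field_simp
          linarith
  refine (measure_iUnion_le _).trans_lt ?_
  rw [← p_tsum]
  refine ENNReal.tsum_lt_tsum (i := 0) ?_ (fun K => (h1 K).le) (h1 0)
  exact ne_top_of_le_ne_top (by rw [p_tsum]; simp) (ENNReal.tsum_le_tsum fun K => (h1 K).le)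

lemma good (ω : ℕ → ℕ × Bool) (h : ∀ K a b, ω ∉ B K a b) :
    AddSubsemigroup.closure {x | ∃ m, 1 ≤ m ∧ x = ∑ i ∈ range m, phi (ω i)} ≠ ⊤ := by
  classical
  let e := Equiv.intEquivNat.symm
  let s : ℕ → ℤ := fun K => if h : ∃ i, (ω i).1 = K then sg (ω (Nat.find h)).2 else 0
  let C : AddSubsemigroup G :=
    { carrier := {g | ∃ K, 0 < s K * g (e K) ∧ ∀ k, K < k → g (e k) = 0}
      add_mem' := by
        rintro f g ⟨K, h1, h2⟩ ⟨L, h3, h4⟩
        rcases lt_trichotomy K L with h5 | rfl | h5
        · exact ⟨L, by simpa [h2 L h5] using h3, fun k hk => by simp [h2 k (by omega), h4 k hk]⟩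
        · exact ⟨K, by simp only [Finsupp.add_apply, mul_add]; omega,
            fun k hk => by simp [h2 k hk, h4 k hk]⟩
        · exact ⟨K, by simpa [h4 K h5] using h1, fun k hk => by simp [h2 k hk, h4 k (by omega)]⟩ }
  have hC : AddSubsemigroup.closure {x | ∃ m, 1 ≤ m ∧ x = ∑ i ∈ range m, phi (ω i)} ≤ C := by
    rw [AddSubsemigroup.closure_le]
    rintro _ ⟨m, hm, rfl⟩
    obtain ⟨i0, hi0, hmax⟩ := exists_max_image (range m) (fun i => (ω i).1) ⟨0, by simp; omega⟩
    have hex : ∃ i, (ω i).1 = (ω i0).1 := ⟨i0, rfl⟩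
    set K := (ω i0).1
    set a := Nat.find hex
    have ha : (ω a).1 = K := Nat.find_spec hex
    have ham : a < m := (Nat.find_min' hex rfl).trans_lt (mem_range.mp hi0)
    have uniq : ∀ i, i < m → i ≠ a → (ω i).1 ≠ K := by
      intro i
      induction i using Nat.strong_induction_on with
      | _ i ih =>
        intro him hia hK
        have hlt : a < i := lt_of_le_of_ne (Nat.find_min' hex hK) hia.symm
        obtain ⟨b, rfl⟩ : ∃ b, i = a + b + 1 := ⟨i - a - 1, by omega⟩
        refine h K a b fun j hj => ?_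
        have hj' : j < a + b + 2 := by simpa using hj
        simp only [Set.mem_preimage]
        split_ifs with h1
        · rcases h1 with rfl | rfl
          · exact ha
          · exact hK
        · have h2 := hmax j (mem_range.mpr (by omega))
          have h3 := ih j (by omega) (by omega) (by omega)
          simp only [coe_range, Set.mem_Iio]
          omega
    have ev : ∀ k, (∑ i ∈ range m, phi (ω i)) (e k) =
        ∑ i ∈ range m, if (ω i).1 = k then sg (ω i).2 else 0 := by
      intro k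
      simp only [Finsupp.coe_finsetSum, Finset.sum_apply, phi, Finsupp.single_apply, e,
        EmbeddingLike.apply_eq_iff_eq]
    refine ⟨K, ?_, fun k hk => ?_⟩
    · rw [ev, sum_eq_single a (fun i hi hia => if_neg (uniq i (mem_range.mp hi) hia))
        (fun h => absurd (mem_range.mpr ham) h), if_pos ha]
      simp only [s, dif_pos hex]
      change 0 < sg (ω a).2 * sg (ω a).2
      cases (ω a).2 <;> simp [sg]
    · rw [ev]
      refine sum_eq_zero fun i hi => if_neg ?_
      have := hmax i hi
      omega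
  intro htop
  obtain ⟨K, h1, -⟩ : (0 : G) ∈ C := hC (htop ▸ trivial)
  simp at h1

theorem result : ∃ μ : PMF G, (∀ g, μ (-g) = μ g) ∧ AddSubgroup.closure μ.support = ⊤ ∧
    ¬ AR μ := by
  refine ⟨mu, mu_symm, mu_gen, fun h => ?_⟩
  have hm : Measurable phi := measurable_of_countable _
  have h1 := h 1 le_rfl
  have e := Measure.infinitePi_map_pi (fun _ : ℕ => nu.toMeasure) (f := fun _ => phi) fun _ => hm
  simp only [PMF.toMeasure_map _ _ hm] at e
  rw [mu, ← e] at h1
  have h2 := ae_of_ae_map (Measurable.aemeasurable (by fun_prop)) h1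
  have h3 : ∀ᵐ ω ∂P, ω ∈ ⋃ K, ⋃ a, ⋃ b, B K a b := by
    filter_upwards [h2] with ω hω
    by_contra hc
    simp only [Set.mem_iUnion, not_exists] at hc
    exact good ω hc hω
  have h4 : P Set.univ ≤ P (⋃ K, ⋃ a, ⋃ b, B K a b) :=
    measure_mono_ae (h3.mono fun ω hω _ => hω)
  rw [measure_univ] at h4
  exact absurd bad_lt (not_lt.mpr h4)

end Pool.Agent.Results.MP_eb99da_pr.NotAR
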